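import Mathlib

/-!
# Norms from a ramified extension
-/

set_option autoImplicit false

open Finset

namespace Pool.Agent.Helper41.RC

/-- A field with an involution, a primitive `n`-th root of unity `ζ` and a discrete valuation ring
`O` stable under the involution with uniformiser `1 - ζ` and residue field with `r` elements. -/
structure RField (r n : ℕ) (E : Type) [Field E] where
  /-- the involution -/
  σ : E ≃+* E
  invol : ∀ x, σ (σ x) = x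
  /-- the root of unity -/
  ζ : E
  prim : IsPrimitiveRoot ζ n
  σ_ζ : σ ζ = ζ⁻¹
  /-- the ring of integers -/
  O : Subring E
  σ_mem : ∀ x ∈ O, σ x ∈ O
  ζ_mem : ζ ∈ O
  /-- the residue map -/
  res : O →+* ZMod r
  ker : ∀ x : O, res x = 0 ↔ ∃ y ∈ O, (x : E) = (1 - ζ) * y
  dvr : ∀ x : E, x ≠ 0 → ∃ (m : ℤ) (u : E), u ∈ O ∧ u⁻¹ ∈ O ∧ x = (1 - ζ) ^ m * u

namespace RField

variable {r n : ℕ} {E : Type} [Field E] (F : RField r n E)

theorem one_sub_ne (hn : 1 < n) : 1 - F.ζ ≠ 0 := by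
  intro h
  exact F.prim.ne_one hn (sub_eq_zero.1 h).symm

theorem ζ_ne (hn : 1 < n) : F.ζ ≠ 0 := F.prim.ne_zero (by omega)

/-- the sum `1 + ζ + ... + ζ ^ (a - 1)` -/
def w (a : ℕ) : F.O := ∑ j ∈ range a, (⟨F.ζ, F.ζ_mem⟩ : F.O) ^ j

theorem one_sub_mem : (1 - F.ζ) ∈ F.O := F.O.sub_mem F.O.one_mem F.ζ_mem

theorem res_one_sub : F.res ⟨1 - F.ζ, F.one_sub_mem⟩ = 0 :=
  (F.ker _).2 ⟨1, F.O.one_mem, by simp⟩

theorem res_ζ : F.res ⟨F.ζ, F.ζ_mem⟩ = 1 := by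
  have h := F.res_one_sub
  have e : (⟨1 - F.ζ, F.one_sub_mem⟩ : F.O) = 1 - ⟨F.ζ, F.ζ_mem⟩ := rfl
  rw [e, map_sub, map_one, sub_eq_zero] at h
  exact h.symm

theorem res_w (a : ℕ) : F.res (F.w a) = a := by
  simp only [w, map_sum, map_pow, F.res_ζ, one_pow, sum_const, card_range, nsmul_eq_mul, mul_one]

theorem one_sub_pow (a : ℕ) : 1 - F.ζ ^ a = (1 - F.ζ) * (F.w a : E) := by
  have h : (F.w a : E) = ∑ j ∈ range a, F.ζ ^ j := by
    simp [w]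
  rw [h, mul_comm]
  have := geom_sum_mul_neg F.ζ a
  rw [this]

/-- the involution acts trivially on the residues -/
theorem res_σ [Fact r.Prime] (hn : 1 < n) (x : F.O) : F.res ⟨F.σ x, F.σ_mem x x.2⟩ = F.res x := by
  have hsurj : ∀ y : ZMod r, ∃ a : ℕ, (a : ZMod r) = y := fun y => ⟨y.val, by simp⟩
  obtain ⟨a, ha⟩ := hsurj (F.res x)
  have h1 : F.res (x - (a : F.O)) = 0 := by rw [map_sub, map_natCast, ha, sub_self]
  obtain ⟨y, hy, h2⟩ := (F.ker _).1 h1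
  have h3 : F.σ ((x - (a : F.O) : F.O) : E) = (1 - F.ζ) * (-F.ζ⁻¹ * F.σ y) := by
    rw [h2, map_mul, map_sub, map_one, F.σ_ζ]
    have := F.ζ_ne hn
    field_simp
    ring
  have hinv : F.ζ⁻¹ ∈ F.O := by
    rw [← F.σ_ζ]
    exact F.σ_mem _ F.ζ_mem
  have h4 : F.res (⟨F.σ x, F.σ_mem x x.2⟩ - (a : F.O)) = 0 := by
    refine (F.ker _).2 ⟨-F.ζ⁻¹ * F.σ y, F.O.mul_mem (F.O.neg_mem hinv) (F.σ_mem _ hy), ?_⟩
    rw [← h3]
    push_cast
    rw [map_sub, map_natCast]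
  rw [map_sub, map_natCast, sub_eq_zero] at h4
  rw [h4, ha]

theorem res_unit_ne [Fact r.Prime] {u : E} (h : u ∈ F.O) (h' : u⁻¹ ∈ F.O) (hu : u ≠ 0) :
    F.res ⟨u, h⟩ ≠ 0 := by
  intro h1
  have h2 : (⟨u, h⟩ : F.O) * ⟨u⁻¹, h'⟩ = 1 := Subtype.ext (mul_inv_cancel₀ hu)
  have h3 := congrArg F.res h2
  rw [map_mul, h1, zero_mul, map_one] at h3
  exact zero_ne_one h3

/-- If minus the product of an even number of `1 - ζ ^ a`, `a` prime to `r`, is a norm, then a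
product of the `a` is a square up to a sign. -/
theorem isSquare_of_norm [Fact r.Prime] (hn : 1 < n) {ι : Type} [Fintype ι] {s : ℕ}
    (hs : Fintype.card ι = 2 * s) (a : ι → ℕ) (ha : ∀ D, ((a D : ℕ) : ZMod r) ≠ 0) (b : E)
    (hb : b * F.σ b = -∏ D, (1 - F.ζ ^ a D)) :
    IsSquare ((-1) ^ (s + 1) * ∏ D, ((a D : ℕ) : ZMod r)) := by
  have hl := F.one_sub_ne hn
  have hz := F.ζ_ne hn
  -- the product of the units
  set P : F.O := ∏ D, F.w (a D) with hP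
  have hPr : F.res P = ∏ D, ((a D : ℕ) : ZMod r) := by
    rw [hP, map_prod]
    exact Finset.prod_congr rfl fun D _ => F.res_w (a D)
  have hPr0 : F.res P ≠ 0 := by
    rw [hPr]
    exact Finset.prod_ne_zero_iff.2 fun D _ => ha D
  have hP0 : (P : E) ≠ 0 := by
    intro h
    have : P = 0 := Subtype.ext h
    rw [this, map_zero] at hPr0
    exact hPr0 rfl
  have hprod : ∏ D, (1 - F.ζ ^ a D) = (1 - F.ζ) ^ (2 * s) * (P : E) := by
    rw [Finset.prod_congr rfl fun D _ => F.one_sub_pow (a D), Finset.prod_mul_distrib,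
      Finset.prod_const, Finset.card_univ, hs, hP]
    push_cast
    rfl
  have hb0 : b ≠ 0 := by
    rintro rfl
    rw [zero_mul, hprod, eq_comm, neg_eq_zero] at hb
    exact mul_ne_zero (pow_ne_zero _ hl) hP0 hb
  obtain ⟨m, u, hu, hu', hbu⟩ := F.dvr b hb0
  have hu0 : u ≠ 0 := by
    rintro rfl
    rw [mul_zero] at hbu
    exact hb0 hbu
  have hinv : F.ζ⁻¹ ∈ F.O := by
    rw [← F.σ_ζ]
    exact F.σ_mem _ F.ζ_mem
  have hσl : F.σ (1 - F.ζ) = (1 - F.ζ) * (-F.ζ⁻¹) := by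
    rw [map_sub, map_one, F.σ_ζ]
    field_simp
    ring
  -- the unit part of the norm
  have e1 : b * F.σ b = (1 - F.ζ) ^ (2 * m) * ((-F.ζ⁻¹) ^ m * (u * F.σ u)) := by
    rw [hbu, map_mul, map_zpow₀, hσl, mul_zpow, two_mul, zpow_add₀ hl]
    ring
  have e2 : (1 - F.ζ) ^ (2 * m) * ((-F.ζ⁻¹) ^ m * (u * F.σ u)) =
      -((1 - F.ζ) ^ (2 * (s : ℤ)) * (P : E)) := by
    rw [← e1, hb, hprod]
    congr 2
    norm_cast
  -- the element `(-ζ⁻¹) ^ m` is a unit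
  have hneg : (-F.ζ⁻¹) ∈ F.O := F.O.neg_mem hinv
  have hneg' : (-F.ζ⁻¹)⁻¹ ∈ F.O := by
    have : (-F.ζ⁻¹)⁻¹ = -F.ζ := by
      rw [inv_neg, inv_inv]
    rw [this]
    exact F.O.neg_mem F.ζ_mem
  have hzm : ∀ m : ℤ, (-F.ζ⁻¹) ^ m ∈ F.O := by
    intro m
    rcases le_or_gt 0 m with h | h
    · lift m to ℕ using h
      rw [zpow_natCast]
      exact F.O.pow_mem hneg m
    · obtain ⟨k, hk⟩ : ∃ k : ℕ, m = -(k : ℤ) := ⟨m.natAbs, by omega⟩
      rw [hk, zpow_neg, ← inv_zpow, zpow_natCast]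
      exact F.O.pow_mem hneg' k
  have hσu : F.σ u ∈ F.O := F.σ_mem _ hu
  have hU : (-F.ζ⁻¹) ^ m * (u * F.σ u) ∈ F.O := F.O.mul_mem (hzm m) (F.O.mul_mem hu hσu)
  have hU' : ((-F.ζ⁻¹) ^ m * (u * F.σ u))⁻¹ ∈ F.O := by
    rw [mul_inv, mul_inv, ← zpow_neg, ← map_inv₀]
    exact F.O.mul_mem (hzm _) (F.O.mul_mem hu' (F.σ_mem _ hu'))
  have hU0 : (-F.ζ⁻¹) ^ m * (u * F.σ u) ≠ 0 := by
    refine mul_ne_zero (zpow_ne_zero _ (neg_ne_zero.2 (inv_ne_zero hz))) (mul_ne_zero hu0 ?_)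
    exact (map_ne_zero F.σ).2 hu0
  have hUr := F.res_unit_ne hU hU' hU0
  -- the valuation
  have hm : m = s := by
    rcases lt_trichotomy m s with h | h | h
    · exfalso
      obtain ⟨k, hk⟩ : ∃ k : ℕ, 2 * (s : ℤ) = 2 * m + (k + 1 : ℕ) :=
        ⟨(2 * (s : ℤ) - 2 * m - 1).toNat, by omega⟩
      rw [hk, zpow_add₀ hl, mul_assoc, ← mul_neg] at e2
      have e3 := mul_left_cancel₀ (zpow_ne_zero _ hl) e2
      rw [zpow_natCast, pow_succ] at e3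
      apply hUr
      refine (F.ker _).2 ⟨-((1 - F.ζ) ^ k * (P : E)), ?_, ?_⟩
      · exact F.O.neg_mem (F.O.mul_mem (F.O.pow_mem F.one_sub_mem k) P.2)
      · change (-F.ζ⁻¹) ^ m * (u * F.σ u) = _
        rw [e3]
        ring
    · exact h
    · exfalso
      obtain ⟨k, hk⟩ : ∃ k : ℕ, 2 * m = 2 * (s : ℤ) + (k + 1 : ℕ) :=
        ⟨(2 * m - 2 * (s : ℤ) - 1).toNat, by omega⟩
      rw [hk, zpow_add₀ hl, mul_assoc, ← mul_neg] at e2
      have e3 := mul_left_cancel₀ (zpow_ne_zero _ hl) e2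
      rw [zpow_natCast, pow_succ] at e3
      apply hPr0
      refine (F.ker _).2 ⟨-((1 - F.ζ) ^ k * ((-F.ζ⁻¹) ^ m * (u * F.σ u))), ?_, ?_⟩
      · exact F.O.neg_mem (F.O.mul_mem (F.O.pow_mem F.one_sub_mem k) hU)
      · linear_combination e3
  subst hm
  have e4 := mul_left_cancel₀ (zpow_ne_zero _ hl) (e2.trans (mul_neg _ _).symm)
  have e5 : (⟨-F.ζ⁻¹, hneg⟩ : F.O) ^ s * (⟨u, hu⟩ * ⟨F.σ u, hσu⟩) = -P := by
    apply Subtype.ext
    push_cast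
    rw [← e4, zpow_natCast]
  have e6 := congrArg F.res e5
  have e7 : F.res ⟨-F.ζ⁻¹, hneg⟩ = -1 := by
    have h1 : (⟨-F.ζ⁻¹, hneg⟩ : F.O) = -⟨F.σ F.ζ, F.σ_mem _ F.ζ_mem⟩ := by
      apply Subtype.ext
      push_cast
      rw [F.σ_ζ]
    rw [h1, map_neg, F.res_σ hn ⟨F.ζ, F.ζ_mem⟩, F.res_ζ]
  rw [map_mul, map_pow, map_mul, map_neg, e7, F.res_σ hn ⟨u, hu⟩, hPr] at e6
  refine ⟨F.res ⟨u, hu⟩, ?_⟩
  have h2 : ((-1 : ZMod r) ^ s) * (-1) ^ s = 1 := by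
    rw [← mul_pow]
    simp
  calc (-1) ^ (s + 1) * ∏ D, ((a D : ℕ) : ZMod r) = (-1) ^ s * -∏ D, ((a D : ℕ) : ZMod r) := by
        rw [pow_succ]; ring
    _ = ((-1) ^ s * (-1) ^ s) * (F.res ⟨u, hu⟩ * F.res ⟨u, hu⟩) := by rw [← e6]; ring
    _ = _ := by rw [h2, one_mul]

end RField

end Pool.Agent.Helper41.RC
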