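import Pool.Agent.Helper41.RC.Field
import Pool.Agent.Helper41.RC.Block

/-!
# Working copy of the definitions of RAMIFIED COVERS
-/

set_option autoImplicit false

open Module

namespace Pool.Agent.Helper41.RC

/-- the sum over the points of the complement of the quadrilateral -/
noncomputable def quadSum {K L : Type} [Field K] [Fintype K] [Field L]
    (χ : Fin 5 → MulChar K L) : L :=
  ∑ x : K, ∑ y : K, χ 0 x * χ 1 (1 - x) * χ 2 y * χ 3 (1 - y) * χ 4 (x - y)

/-- the exponents of `x ^ a 0 * (1 - x) ^ a 1 * y ^ a 2 * (1 - y) ^ a 3 * (x - y) ^ a 4` along the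
ten curves at the boundary of the moduli space of five points on the projective line -/
def residues {R : Type} [CommRing R] (a : Fin 5 → R) : Fin 10 → R :=
  ![a 0, a 1, a 2, a 3, a 4, -(a 0 + a 1 + a 4), -(a 2 + a 3 + a 4), a 0 + a 2 + a 4,
    a 1 + a 3 + a 4, -(a 0 + a 1 + a 2 + a 3 + a 4)]

/-- the power of the character `τ` with exponent `(q - 1) a / n`, `q` the number of elements -/
noncomputable def power {K L : Type} [Field K] [Fintype K] [Field L] {n : ℕ} (τ : MulChar K L)
    (a : ZMod n) : MulChar K L := τ ^ ((Fintype.card K - 1) * a.val / n)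

/-- Frobenius on `V = H²(X̄, L)` and the parts of `V` belonging to the characters of the group of
the cover. -/
structure QuadrilateralH2 (p n : ℕ) (L V : Type) [Field L] [AddCommGroup V] [Module L V] where
  /-- the geometric Frobenius -/
  Fr : End L V
  injective : Function.Injective Fr
  /-- the cup product -/
  B : LinearMap.BilinForm L V
  symm : ∀ x y, B x y = B y x
  similitude : ∀ x y, B (Fr x) (Fr y) = (p : L) ^ 2 * B x y
  /-- the span of algebraic classes -/
  N : Submodule L V
  N_stable : ∀ x ∈ N, Fr x ∈ N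
  N_semisimple : End.IsSemisimple (Fr.restrict N_stable)
  /-- the part belonging to the character with the exponents `a` -/
  W : (Fin 5 → ZMod n) → Submodule L V
  span : N ⊔ ⨆ a, W a = ⊤
  stable : ∀ a, ∀ x ∈ W a, Fr x ∈ W (fun i => p * a i)
  perfect : ∀ a, ∀ v ∈ W a, (∀ w ∈ W (-a), B v w = 0) → v = 0
  finrank_le : ∀ a, finrank L (W a) ≤ 2
  /-- the character is unramified along one of the ten curves and its square is not trivial -/
  finrank_le_one : ∀ a, (∃ i, residues a i = 0) → (∃ i, 2 * a i ≠ 0) → finrank L (W a) ≤ 1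
  /-- the trace formula -/
  trace_formula : ∀ (m : ℕ) (K : Type) [Field K] [Fintype K],
    Fintype.card K = p ^ m → ∃ τ : MulChar K L, orderOf τ = p ^ m - 1 ∧
      ∀ a, W a ≠ ⊥ → (∀ i, residues a i ≠ 0) → (∀ i, (p : ZMod n) ^ m * a i = a i) →
        ∀ h : ∀ x ∈ W a, (Fr ^ m) x ∈ W a,
          LinearMap.trace L (W a) ((Fr ^ m).restrict h) = quadSum fun i => power τ (a i)

/-- The same with `ℓ = r`: `V = H²(X̄, ℚ_r) ⊗ L` for a field `L` containing `E = ℚ_r(ζ)`, `b` is a
basis of `H²(X̄, ℚ_r)`, and the determinant of the Hermitian form given by the cup product on the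
part with the exponents `a` is the product of the ten numbers `1 - ζ ^ x`, `x` the exponents along
the ten curves, up to a norm. -/
structure RationalH2 (p : ℕ) {r n : ℕ} {E : Type} [Field E] (F : RField r n E) (L V : Type)
    [Field L] [Algebra E L] [AddCommGroup V] [Module L V] extends QuadrilateralH2 p n L V where
  d : ℕ
  /-- a basis of the cohomology with coefficients in `ℚ_r` -/
  b : Basis (Fin d) L V
  Fr_rational : ∀ i j, ∃ x : E, F.σ x = x ∧ b.repr (Fr (b i)) j = algebraMap E L x
  B_rational : ∀ i j, ∃ x : E, F.σ x = x ∧ B (b i) (b j) = algebraMap E L x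
  W_rational : ∀ a, W a ≤ Submodule.span L {x | x ∈ W a ∧ ∃ c : Fin d → E, x = vec b c}
  det : ∀ a, (∀ i, residues a i ≠ 0) → ∀ c c' : Fin d → E, vec b c ∈ W a → vec b c' ∈ W a →
    LinearIndependent L ![vec b c, vec b c'] → ∃ z : E, z ≠ 0 ∧
      B (vec b c) (vec b fun i => F.σ (c i)) * B (vec b c') (vec b fun i => F.σ (c' i)) -
        B (vec b c) (vec b fun i => F.σ (c' i)) * B (vec b c') (vec b fun i => F.σ (c i)) =
      algebraMap E L (z * F.σ z * ∏ i, (1 - F.ζ ^ (residues a i).val))

section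

variable {p r n : ℕ} {E : Type} [Field E] {F : RField r n E} {L V : Type}
  [Field L] [Algebra E L] [AddCommGroup V] [Module L V]

theorem vec_add (d : ℕ) (b : Basis (Fin d) L V) (c c' : Fin d → E) :
    vec b (c + c') = vec b c + vec b c' := by
  simp [vec, add_smul, Finset.sum_add_distrib]

/-- the matrix of Frobenius is fixed by the involution -/
theorem Fr_vec (H : RationalH2 p F L V) (c : Fin H.d → E) :
    ∃ c', H.Fr (vec H.b c) = vec H.b c' ∧
      H.Fr (vec H.b fun i => F.σ (c i)) = vec H.b fun i => F.σ (c' i) := by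
  choose A hA1 hA2 using H.Fr_rational
  have key : ∀ c : Fin H.d → E, H.Fr (vec H.b c) = vec H.b fun j => ∑ i, A i j * c i := by
    intro c
    apply H.b.repr.injective
    ext j
    rw [repr_vec, vec, map_sum, map_sum, Finsupp.finsetSum_apply, map_sum]
    refine Finset.sum_congr rfl fun i _ => ?_
    rw [map_smul, map_smul, Finsupp.smul_apply, hA2, smul_eq_mul, map_mul, mul_comm]
  refine ⟨_, key c, ?_⟩
  rw [key]
  congr 1
  funext j
  rw [map_sum]
  refine Finset.sum_congr rfl fun i _ => ?_
  rw [map_mul, hA1]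

theorem Fr_pow_vec (H : RationalH2 p F L V) (m : ℕ) (c : Fin H.d → E) :
    ∃ c', (H.Fr ^ m) (vec H.b c) = vec H.b c' ∧
      (H.Fr ^ m) (vec H.b fun i => F.σ (c i)) = vec H.b fun i => F.σ (c' i) := by
  induction m with
  | zero => exact ⟨c, rfl, rfl⟩
  | succ m ih =>
    obtain ⟨c', h1, h2⟩ := ih
    obtain ⟨c'', h3, h4⟩ := Fr_vec H c'
    refine ⟨c'', ?_, ?_⟩
    · rw [pow_succ', End.mul_apply, h1, h3]
    · rw [pow_succ', End.mul_apply, h2, h4]

/-- values of the form -/
theorem B_vec (H : RationalH2 p F L V) (c c' : Fin H.d → E) :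
    ∃ x : E, H.B (vec H.b c) (vec H.b c') = algebraMap E L x ∧
      H.B (vec H.b fun i => F.σ (c i)) (vec H.b fun i => F.σ (c' i)) =
        algebraMap E L (F.σ x) := by
  choose A hA1 hA2 using H.B_rational
  have key : ∀ c c' : Fin H.d → E, H.B (vec H.b c) (vec H.b c') =
      algebraMap E L (∑ i, ∑ j, c i * c' j * A i j) := by
    intro c c'
    simp only [vec, map_sum, map_smul, LinearMap.sum_apply, LinearMap.smul_apply, hA2,
      smul_eq_mul, map_mul]
    rw [Finset.sum_comm]
    refine Finset.sum_congr rfl fun i _ => ?_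
    rw [Finset.mul_sum]
    refine Finset.sum_congr rfl fun j _ => ?_
    ring
  refine ⟨_, key c c', ?_⟩
  rw [key]
  congr 1
  simp only [map_sum, map_mul, hA1]

/-- A Jordan block of a power of Frobenius on a part of rank two: minus the product of the ten
numbers `1 - ζ ^ x` is a norm. -/
theorem norm_of_block (H : RationalH2 p F L V) [CharZero L] [FiniteDimensional L V]
    (hp : p ≠ 0) {m : ℕ} {a : Fin 5 → ZMod n} (hres : ∀ i, residues a i ≠ 0)
    (hsim : ∀ x y, H.B ((H.Fr ^ m) x) ((H.Fr ^ m) y) = ((p : L) ^ m) ^ 2 * H.B x y)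
    (hst : ∀ x ∈ H.W a, (H.Fr ^ m) x ∈ H.W a) (x : H.W a) (c : L)
    (h1 : ((H.Fr ^ m).restrict hst - c • 1) (((H.Fr ^ m).restrict hst - c • 1) x) = 0)
    (h2 : ((H.Fr ^ m).restrict hst - c • 1) x ≠ 0) :
    ∃ y : E, y * F.σ y = -∏ i, (1 - F.ζ ^ (residues a i).val) := by
  have hQ : ((p : L) ^ m) ^ 2 ≠ 0 := pow_ne_zero _ (pow_ne_zero _ (Nat.cast_ne_zero.2 hp))
  have h1' : (H.Fr ^ m) ((H.Fr ^ m) (x : V) - c • (x : V)) =
      c • ((H.Fr ^ m) (x : V) - c • (x : V)) := by
    have := congrArg Subtype.val h1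
    simp only [LinearMap.sub_apply, LinearMap.smul_apply, End.one_apply, LinearMap.restrict_apply,
      Submodule.coe_sub, Submodule.coe_smul, Submodule.coe_zero] at this
    rw [sub_eq_zero] at this
    exact this
  have h2' : (H.Fr ^ m) (x : V) - c • (x : V) ≠ 0 := by
    intro h
    apply h2
    apply Subtype.ext
    simp only [LinearMap.sub_apply, LinearMap.smul_apply, End.one_apply, LinearMap.restrict_apply,
      Submodule.coe_sub, Submodule.coe_smul, Submodule.coe_zero]
    exact h
  obtain ⟨e, v, he, hv, hind, hiso⟩ := isotropic_of_block F.σ H.b (H.Fr ^ m) H.B hQ hsim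
    (fun c => Fr_pow_vec H m c) (H.W a) (H.W_rational a) (H.finrank_le a) hst x.2 h1' h2'
  obtain ⟨z, hz, hdet⟩ := H.det a hres e v he hv hind
  rw [hiso, mul_zero, zero_sub] at hdet
  obtain ⟨y, hy1, hy2⟩ := B_vec H e fun i => F.σ (v i)
  have hy3 : H.B (vec H.b v) (vec H.b fun i => F.σ (e i)) = algebraMap E L (F.σ y) := by
    rw [H.symm, ← hy2]
    simp only [F.invol]
  rw [hy1, hy3, ← map_mul, ← map_neg] at hdet
  have h3 := (algebraMap E L).injective hdet
  have hσz : F.σ z ≠ 0 := (map_ne_zero F.σ).2 hz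
  refine ⟨y / z, ?_⟩
  rw [map_div₀]
  field_simp
  linear_combination -h3

end

end Pool.Agent.Helper41.RC
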