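import Mathlib

/-!
# Numbers prime to `r` instead of the exponents
-/

set_option autoImplicit false

open Finset

namespace Pool.Agent.Helper41.RC

/-- the solutions `z` of `r ^ e z = x`, `x = r ^ e y` -/
def sol (r k e y j : ℕ) : ℕ := y + r ^ (k - e) * j

theorem exists_val {r k : ℕ} [hr : Fact r.Prime] (x : ZMod (r ^ k)) (hx : x ≠ 0) :
    ∃ e y : ℕ, e < k ∧ ¬ r ∣ y ∧ x.val = r ^ e * y := by
  have : NeZero (r ^ k) := ⟨pow_ne_zero k hr.out.ne_zero⟩
  have h0 : x.val ≠ 0 := by rwa [ne_eq, ZMod.val_eq_zero]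
  obtain ⟨e, y, hy, h⟩ := Nat.exists_eq_pow_mul_and_not_dvd h0 r hr.out.ne_one
  refine ⟨e, y, ?_, hy, h⟩
  by_contra hcon
  push Not at hcon
  have h1 := ZMod.val_lt x
  have h2 : r ^ k ≤ r ^ e := Nat.pow_le_pow_right hr.out.pos hcon
  have h3 : 1 ≤ y := by
    rcases Nat.eq_zero_or_pos y with h4 | h4
    · exact absurd (h4 ▸ dvd_zero r) hy
    · exact h4
  have h4 : r ^ e * 1 ≤ r ^ e * y := Nat.mul_le_mul_left _ h3
  omega

theorem prod_sol {r k e y : ℕ} [NeZero (r ^ e)] (hr : 0 < r) (he : e < k) {E : Type} [Field E] {ζ : E}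
    (hζ : IsPrimitiveRoot ζ (r ^ k)) :
    ∏ j ∈ range (r ^ e), (1 - ζ ^ sol r k e y j) = 1 - ζ ^ (r ^ e * y) := by
  classical
  have hk : r ^ k = r ^ (k - e) * r ^ e := by
    rw [← pow_add]
    congr 1
    omega
  have hω : IsPrimitiveRoot (ζ ^ r ^ (k - e)) (r ^ e) := hζ.pow (pow_pos hr k) hk
  have hpos : 0 < r ^ e := pow_pos hr e
  have h1 := hω.pow_sub_pow_eq_prod_sub_mul (x := (1 : E)) (y := ζ ^ y) hpos
  rw [one_pow, ← pow_mul, mul_comm y] at h1
  rw [h1]
  refine Finset.prod_bij (fun j _ => (ζ ^ r ^ (k - e)) ^ j) ?_ ?_ ?_ ?_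
  · intro j _
    rw [Polynomial.mem_nthRootsFinset hpos, ← pow_mul, mul_comm j, pow_mul, hω.pow_eq_one, one_pow]
  · intro i hi j hj h
    exact hω.pow_inj (mem_range.1 hi) (mem_range.1 hj) h
  · intro z hz
    rw [Polynomial.mem_nthRootsFinset hpos] at hz
    obtain ⟨j, hj, h⟩ := hω.eq_pow_of_pow_eq_one hz
    exact ⟨j, mem_range.2 hj, h⟩
  · intro j _
    rw [sol, pow_add, pow_mul]
    ring

theorem sum_shift {n M N y : ℕ} [NeZero n] (hn : n = M * N) (g : (ZMod n)ˣ) :
    2 * ∑ j ∈ range N, ((g : ZMod n) * ((y + M * j : ℕ) : ZMod n)).val =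
      2 * ((g : ZMod n) * ((N * y : ℕ) : ZMod n)).val + n * (N - 1) := by
  classical
  have hn0 : n ≠ 0 := NeZero.ne n
  have hM0 : 0 < M := by
    rcases Nat.eq_zero_or_pos M with h | h
    · exact absurd (by rw [hn, h, zero_mul]) hn0
    · exact h
  have hMn : M ∣ n := Dvd.intro _ hn.symm
  set z := ((g : ZMod n) * (y : ℕ)).val with hz
  set z0 := z % M with hz0
  have hz' : ((z : ℕ) : ZMod n) = (g : ZMod n) * (y : ℕ) := by rw [hz, ZMod.natCast_zmod_val]
  -- the value for `j`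
  have hval : ∀ j, ((g : ZMod n) * ((y + M * j : ℕ) : ZMod n)).val =
      (z + M * ((g : ZMod n).val * j)) % n := by
    intro j
    rw [← ZMod.val_natCast]
    congr 1
    push_cast
    rw [hz', ZMod.natCast_zmod_val]
    ring
  have hmod : ∀ j, ((g : ZMod n) * ((y + M * j : ℕ) : ZMod n)).val % M = z0 := by
    intro j
    rw [hval, Nat.mod_mod_of_dvd _ hMn, Nat.add_mul_mod_self_left]
  -- the two sets
  have hinj : ∀ i ∈ range N, ∀ j ∈ range N,
      ((g : ZMod n) * ((y + M * i : ℕ) : ZMod n)).val =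
        ((g : ZMod n) * ((y + M * j : ℕ) : ZMod n)).val → i = j := by
    intro i hi j hj h
    rw [mem_range] at hi hj
    have h1 := ZMod.val_injective _ h
    have h2 : ((y + M * i : ℕ) : ZMod n) = ((y + M * j : ℕ) : ZMod n) :=
      g.isUnit.mul_left_cancel h1
    rw [ZMod.natCast_eq_natCast_iff] at h2
    have h3 : M * i ≡ M * j [MOD n] := Nat.ModEq.add_left_cancel' y h2
    rw [hn] at h3
    have h4 : i ≡ j [MOD N] := Nat.ModEq.mul_left_cancel' hM0.ne' h3
    rw [Nat.ModEq, Nat.mod_eq_of_lt hi, Nat.mod_eq_of_lt hj] at h4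
    exact h4
  have hinj' : ∀ i ∈ range N, ∀ j ∈ range N, z0 + M * i = z0 + M * j → i = j := by
    intro i _ j _ h
    exact Nat.eq_of_mul_eq_mul_left hM0 (Nat.add_left_cancel h)
  have himage : (range N).image (fun j =>
      ((g : ZMod n) * ((y + M * j : ℕ) : ZMod n)).val) = (range N).image fun i => z0 + M * i := by
    apply Finset.eq_of_subset_of_card_le
    · intro v hv
      obtain ⟨j, hj, rfl⟩ := mem_image.1 hv
      refine mem_image.2 ⟨((g : ZMod n) * ((y + M * j : ℕ) : ZMod n)).val / M, ?_, ?_⟩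
      · rw [mem_range, Nat.div_lt_iff_lt_mul hM0]
        have h1 := ZMod.val_lt ((g : ZMod n) * ((y + M * j : ℕ) : ZMod n))
        rwa [mul_comm N, ← hn]
      · rw [← hmod j, Nat.mod_add_div]
    · rw [card_image_of_injOn hinj, card_image_of_injOn hinj']
  have hsum : ∑ j ∈ range N, ((g : ZMod n) * ((y + M * j : ℕ) : ZMod n)).val =
      ∑ i ∈ range N, (z0 + M * i) := by
    rw [← Finset.sum_image (f := fun v => v) hinj, himage, Finset.sum_image hinj']
  -- the right side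
  have hright : ((g : ZMod n) * ((N * y : ℕ) : ZMod n)).val = N * z0 := by
    have h1 : (g : ZMod n) * ((N * y : ℕ) : ZMod n) = ((N * z : ℕ) : ZMod n) := by
      push_cast
      rw [hz']
      ring
    have h2 : N * z % n = N * (z % M) := by rw [hn, mul_comm M, Nat.mul_mod_mul_left]
    rw [h1, ZMod.val_natCast, h2]
  rw [hsum, hright, Finset.sum_add_distrib, Finset.sum_const, card_range, smul_eq_mul,
    ← Finset.mul_sum, mul_add]
  have h2 : 2 * (M * ∑ i ∈ range N, i) = n * (N - 1) := by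
    have h3 := Finset.sum_range_id_mul_two N
    rw [mul_left_comm, mul_comm 2, h3, hn, mul_assoc]
  rw [h2]

/-- Ten exponents which are not zero are replaced by an even number of numbers prime to `r`. -/
theorem refine {r k : ℕ} [hr : Fact r.Prime] (hr2 : r ≠ 2) (x : Fin 10 → ZMod (r ^ k))
    (hx : ∀ i, x i ≠ 0) (hsum : ∑ i, x i = 0) :
    ∃ (ι : Type) (_ : Fintype ι) (s : ℕ) (v : ι → ℕ), Fintype.card ι = 2 * s ∧
      (∀ D, ((v D : ℕ) : ZMod r) ≠ 0) ∧
      (∀ {E : Type} [Field E] {ζ : E}, IsPrimitiveRoot ζ (r ^ k) →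
        ∏ D, (1 - ζ ^ v D) = ∏ i, (1 - ζ ^ (x i).val)) ∧
      (∀ g : (ZMod (r ^ k))ˣ, ∑ D, ((g : ZMod (r ^ k)) * ((v D : ℕ) : ZMod (r ^ k))).val +
        5 * r ^ k = ∑ i, ((g : ZMod (r ^ k)) * x i).val + s * r ^ k) ∧
      r ^ k ∣ ∑ D, v D := by
  classical
  have hr0 : 0 < r := hr.out.pos
  have : NeZero (r ^ k) := ⟨pow_ne_zero k hr.out.ne_zero⟩
  choose e y he hy hxv using fun i => exists_val (x i) (hx i)
  have hodd : ∀ i, Odd (r ^ e i) := fun i => (hr.out.odd_of_ne_two hr2).pow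
  have heven : Even (∑ i, r ^ e i) := by
    choose c hc using hodd
    rw [Finset.sum_congr rfl fun i _ => hc i, Finset.sum_add_distrib, ← Finset.mul_sum]
    refine ⟨∑ i, c i + 5, ?_⟩
    simp only [Finset.sum_const, card_univ, Fintype.card_fin, smul_eq_mul]
    ring
  obtain ⟨s, hs⟩ := heven
  have hcard : Fintype.card (Σ i : Fin 10, Fin (r ^ e i)) = 2 * s := by
    rw [Fintype.card_sigma]
    simp only [Fintype.card_fin]
    omega
  have hg : ∀ g : (ZMod (r ^ k))ˣ,
      ∑ D : (Σ i : Fin 10, Fin (r ^ e i)), ((g : ZMod (r ^ k)) *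
        ((sol r k (e D.1) (y D.1) D.2 : ℕ) : ZMod (r ^ k))).val + 5 * r ^ k =
      ∑ i, ((g : ZMod (r ^ k)) * x i).val + s * r ^ k := by
    intro g
    rw [Fintype.sum_sigma]
    have h1 : ∀ i : Fin 10, 2 * ∑ j : Fin (r ^ e i), ((g : ZMod (r ^ k)) *
        ((sol r k (e i) (y i) j : ℕ) : ZMod (r ^ k))).val + r ^ k =
        2 * ((g : ZMod (r ^ k)) * x i).val + r ^ k * r ^ e i := by
      intro i
      have hk : r ^ k = r ^ (k - e i) * r ^ e i := by
        rw [← pow_add]
        congr 1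
        have := he i
        omega
      have h2 := sum_shift (y := y i) hk g
      rw [← hxv i, ZMod.natCast_zmod_val] at h2
      rw [Fin.sum_univ_eq_sum_range (fun j => ((g : ZMod (r ^ k)) *
        ((sol r k (e i) (y i) j : ℕ) : ZMod (r ^ k))).val)]
      simp only [sol]
      rw [h2, Nat.mul_sub, mul_one]
      have h3 : r ^ k * 1 ≤ r ^ k * r ^ e i := Nat.mul_le_mul_left _ (pow_pos hr0 _)
      omega
    have h2 := Finset.sum_congr rfl fun i (_ : i ∈ (univ : Finset (Fin 10))) => h1 i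
    rw [Finset.sum_add_distrib, Finset.sum_add_distrib, ← Finset.mul_sum, ← Finset.mul_sum,
      ← Finset.mul_sum, hs, Finset.sum_const, card_univ, Fintype.card_fin, smul_eq_mul,
      mul_add, mul_comm (r ^ k) s] at h2
    have h3 : ∀ A B C n : ℕ, 2 * A + 10 * n = 2 * B + (C + C) → A + 5 * n = B + C := by omega
    exact h3 _ _ _ _ h2
  refine ⟨_, inferInstance, s, fun D => sol r k (e D.1) (y D.1) D.2, hcard, ?_, ?_, hg, ?_⟩
  · rintro ⟨i, j⟩
    simp only [sol]
    rw [ne_eq, ZMod.natCast_eq_zero_iff]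
    intro h
    apply hy i
    have h1 : r ∣ r ^ (k - e i) * j := (dvd_pow_self r (by have := he i; omega)).mul_right _
    exact (Nat.dvd_add_left h1).1 h
  · intro E _ ζ hζ
    rw [Fintype.prod_sigma]
    refine Finset.prod_congr rfl fun i _ => ?_
    have : NeZero (r ^ e i) := ⟨pow_ne_zero _ hr.out.ne_zero⟩
    rw [Fin.prod_univ_eq_prod_range (fun j => 1 - ζ ^ sol r k (e i) (y i) j),
      prod_sol hr0 (he i) hζ, ← hxv]
  · have h1 := hg 1
    rw [← ZMod.natCast_eq_zero_iff]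
    have h2 := congrArg (fun t : ℕ => (t : ZMod (r ^ k))) h1
    simp only [Units.val_one, one_mul] at h2
    push_cast at h2
    simp only [ZMod.natCast_val, ZMod.cast_id', id_eq] at h2
    have h3 : (r : ZMod (r ^ k)) ^ k = 0 := by
      have := ZMod.natCast_self (r ^ k)
      push_cast at this
      exact this
    rw [hsum, h3, mul_zero, mul_zero, add_zero, add_zero] at h2
    push_cast
    exact h2

end Pool.Agent.Helper41.RC
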