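import Pool.Agent.Helper73.QC.Good
import Pool.Agent.Helper41.RC.Refine

/-!
# A place where the determinant has odd valuation
-/

set_option autoImplicit false

open Finset Pool.Agent.Helper79.QC Pool.Agent.Helper73.QC

namespace Pool.Agent.Helper41.RC

theorem sum_split {ι : Type} [Fintype ι] {s : ℕ} {M : Type} [AddCommMonoid M]
    (f : ι ⊕ (Fin (s + 1) × Bool) → M) :
    ∑ x, f x = ∑ D, f (Sum.inl D) + (∑ j, f (Sum.inr (j, true)) + ∑ j, f (Sum.inr (j, false))) := by
  rw [Fintype.sum_sum_type, Fintype.sum_prod_type, ← Finset.sum_add_distrib]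
  congr 1
  refine Finset.sum_congr rfl fun j _ => ?_
  rw [Fintype.sum_bool]

/-- the numbers `v` and `s + 1` pairs `1`, `-1`, made to have sum zero -/
def fill {ι : Type} [Fintype ι] (s : ℕ) (v : ι → ℕ) : ι ⊕ (Fin (s + 1) × Bool) → ℤ
  | Sum.inl D => v D
  | Sum.inr (j, true) => if j = 0 then 1 - ∑ D, (v D : ℤ) else 1
  | Sum.inr (_, false) => -1

theorem sum_fill {ι : Type} [Fintype ι] (s : ℕ) (v : ι → ℕ) : ∑ x, fill s v x = 0 := by
  rw [sum_split]
  simp only [fill, Finset.sum_const, card_univ, Fintype.card_fin]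
  rw [Fin.sum_univ_succ]
  simp only [if_true, Fin.succ_ne_zero, if_false, Finset.sum_const, card_univ, Fintype.card_fin]
  simp
  ring

theorem dual_or_place {p r k : ℕ} [hp : Fact p.Prime] [hr : Fact r.Prime] (h4 : r % 4 = 3)
    (hpr : p ≠ r) (hk : 0 < k) {a : Fin 5 → ZMod (r ^ k)} {ι : Type} [Fintype ι] {s : ℕ}
    (v : ι → ℕ) (hcard : Fintype.card ι = 2 * s) (hv : ∀ D, ((v D : ℕ) : ZMod r) ≠ 0)
    (hg : ∀ g : (ZMod (r ^ k))ˣ, ∑ D, ((g : ZMod (r ^ k)) * ((v D : ℕ) : ZMod (r ^ k))).val +
        5 * r ^ k = ∑ i, ((g : ZMod (r ^ k)) * residues a i).val + s * r ^ k)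
    (hdvd : r ^ k ∣ ∑ D, v D)
    (hsq : IsSquare ((-1) ^ (s + 1) * ∏ D, ((v D : ℕ) : ZMod r))) :
    SelfDual p a ∨ OddPlace p a := by
  classical
  have hrp : r.Prime := hr.out
  have hr2 : r ≠ 2 := by rintro rfl; omega
  have hodd' : Odd r := hrp.odd_of_ne_two hr2
  have : NeZero (r ^ k) := ⟨pow_ne_zero k hrp.ne_zero⟩
  have hpos : 0 < r ^ k := pow_pos hrp.pos k
  have h1 : 1 < r ^ k := Nat.one_lt_pow hk.ne' hrp.one_lt
  have hcop : p.Coprime (r ^ k) :=
    ((Nat.coprime_primes hp.out hrp).2 hpr).pow_right k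
  by_cases hj : ∃ j, r ∣ p ^ j + 1
  · left
    obtain ⟨j, hj⟩ := hj
    have hd := dvd_pow_add_one' hodd' hj k
    rw [← pow_mul] at hd
    have hf : (p : ZMod (r ^ k)) ^ (j * r ^ k) = -1 := by
      have h1 : ((p ^ (j * r ^ k) + 1 : ℕ) : ZMod (r ^ k)) = 0 :=
        (ZMod.natCast_eq_zero_iff _ _).2 hd
      push_cast at h1
      linear_combination h1
    have hkill : (r : ZMod (r ^ k)) ^ k = 0 := by
      have h1 := ZMod.natCast_self (r ^ k)
      push_cast at h1
      exact h1
    refine ⟨j * r ^ k, r, k, hrp, hr2, ?_, ?_, 0, ?_⟩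
    · intro i
      rw [hf]
      ring
    · intro i
      rw [hkill, mul_zero, zero_mul]
    · rw [hkill, zero_mul]
  · right
    let P : (ZMod (r ^ k))ˣ := ZMod.unitOfCoprime p hcop
    have hP : (P : ZMod (r ^ k)) = p := ZMod.coe_unitOfCoprime p hcop
    set m := orderOf P with hm
    have hm0 : 0 < m := orderOf_pos P
    have hodd : Odd m := by
      rw [← Nat.not_even_iff_odd]
      rintro ⟨q, hq⟩
      apply hj
      refine ⟨q, ?_⟩
      have h1 : P ^ q ≠ 1 := by
        intro h1
        have := Nat.le_of_dvd (by omega) (orderOf_dvd_of_pow_eq_one h1)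
        omega
      have h2 : P ^ (q + q) = 1 := by rw [← hq, hm, pow_orderOf_eq_one]
      have hp1 : 1 ≤ p ^ q := Nat.one_le_pow _ _ hp.out.pos
      have h3 : r ^ k ∣ (p ^ q - 1) * (p ^ q + 1) := by
        have h4 := congrArg Units.val h2
        rw [Units.val_pow_eq_pow_val, hP, Units.val_one, pow_add] at h4
        rw [← ZMod.natCast_eq_zero_iff, Nat.cast_mul, Nat.cast_sub hp1]
        push_cast
        linear_combination h4
      by_contra hnd
      have h4 : (r ^ k).Coprime (p ^ q + 1) :=
        ((Nat.Prime.coprime_iff_not_dvd hrp).2 hnd).pow_left k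
      have h5 := h4.dvd_of_dvd_mul_right h3
      apply h1
      rw [Units.ext_iff, Units.val_pow_eq_pow_val, hP, Units.val_one]
      rw [← ZMod.natCast_eq_zero_iff, Nat.cast_sub hp1] at h5
      push_cast at h5
      linear_combination h5
    -- the numbers
    set w := fill s v with hw
    obtain ⟨c, hc⟩ := hdvd
    have hN : (∑ D, (v D : ℤ)) = ((r ^ k * c : ℕ) : ℤ) := by
      rw [← hc]
      push_cast
      rfl
    have hNr : ((∑ D, (v D : ℤ) : ℤ) : ZMod r) = 0 := by
      rw [hN, Int.cast_natCast, ZMod.natCast_eq_zero_iff]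
      exact (dvd_pow_self r hk.ne').mul_right c
    have hNn : ((∑ D, (v D : ℤ) : ℤ) : ZMod (r ^ k)) = 0 := by
      rw [hN, Int.cast_natCast, ZMod.natCast_eq_zero_iff]
      exact Dvd.intro c rfl
    -- the residues
    have hwr : ∀ x, ((w x : ℤ) : ZMod r) =
        (match x with
          | Sum.inl D => ((v D : ℕ) : ZMod r)
          | Sum.inr (_, true) => 1
          | Sum.inr (_, false) => -1) := by
      rintro (D | ⟨j, b⟩)
      · simp [hw, fill]
      · cases b
        · simp [hw, fill]
        · simp only [hw, fill]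
          split_ifs
          · rw [Int.cast_sub, hNr]
            simp
          · simp
    have hwn : ∀ x, ((w x : ℤ) : ZMod (r ^ k)) =
        (match x with
          | Sum.inl D => ((v D : ℕ) : ZMod (r ^ k))
          | Sum.inr (_, true) => 1
          | Sum.inr (_, false) => -1) := by
      rintro (D | ⟨j, b⟩)
      · simp [hw, fill]
      · cases b
        · simp [hw, fill]
        · simp only [hw, fill]
          split_ifs
          · rw [Int.cast_sub, hNn]
            simp
          · simp
    have hone : (1 : ZMod r) ≠ 0 := one_ne_zero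
    have hdv : ∀ D, ¬ (r : ℤ) ∣ w D := by
      intro D hD
      rw [← ZMod.intCast_zmod_eq_zero_iff_dvd, hwr] at hD
      rcases D with D | ⟨j, b⟩
      · exact hv D hD
      · cases b
        · exact hone (neg_eq_zero.1 hD)
        · exact hone hD
    have hprod : ((∏ x, w x : ℤ) : ZMod r) = (-1) ^ (s + 1) * ∏ D, ((v D : ℕ) : ZMod r) := by
      rw [Int.cast_prod, Finset.prod_congr rfl fun x _ => hwr x, Fintype.prod_sum_type,
        Fintype.prod_prod_type, mul_comm]
      simp
    have hns : ¬ IsSquare (((-∏ x, w x : ℤ)) : ZMod r) := by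
      intro h
      rw [Int.cast_neg, hprod] at h
      obtain ⟨y, hy⟩ := hsq
      have hy0 : y ≠ 0 := by
        rintro rfl
        rw [mul_zero] at hy
        have h2 : ∏ D, ((v D : ℕ) : ZMod r) ≠ 0 := Finset.prod_ne_zero_iff.2 fun D _ => hv D
        have h3 : ((-1 : ZMod r)) ^ (s + 1) ≠ 0 := pow_ne_zero _ (neg_ne_zero.2 hone)
        exact mul_ne_zero h3 h2 hy
      obtain ⟨z, hz⟩ := h
      have h5 : IsSquare (-1 : ZMod r) := by
        refine ⟨z / y, ?_⟩
        field_simp
        linear_combination hy + hz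
      rw [ZMod.exists_sq_eq_neg_one_iff] at h5
      omega
    have hcard' : Even (Fintype.card (ι ⊕ (Fin (s + 1) × Bool))) := by
      rw [Fintype.card_sum, hcard, Fintype.card_prod, Fintype.card_fin, Fintype.card_bool]
      exact ⟨s + (s + 1), by ring⟩
    obtain ⟨h, hh⟩ := exists_even hr2 hk hcard' w hdv (sum_fill s v) hns
      (Subgroup.zpowers P) (by rw [Nat.card_zpowers]; exact hodd)
    rw [finsum_zpowers P (fun x => total (r ^ k) w (x * h) / r ^ k)] at hh
    -- the total and the height
    have htotal : ∀ g : (ZMod (r ^ k))ˣ,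
        total (r ^ k) w g / r ^ k + 4 = height (fun i => (g : ZMod (r ^ k)) * a i) + 2 * s := by
      intro g
      have h2 : total (r ^ k) w g =
          ∑ D, ((g : ZMod (r ^ k)) * ((v D : ℕ) : ZMod (r ^ k))).val + (s + 1) * r ^ k := by
        rw [total, sum_split]
        simp only [hwn, mul_one, mul_neg, Finset.sum_const, card_univ, Fintype.card_fin,
          smul_eq_mul]
        congr 1
        have h3 := val_neg h1 g
        rw [Units.val_neg] at h3
        have h5 := ZMod.val_lt (g : ZMod (r ^ k))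
        rw [← mul_add, h3]
        congr 1
        omega
      have h3 := hg g
      have h5 : ∑ i, ((g : ZMod (r ^ k)) * residues a i).val =
          ∑ i, (residues (fun i => (g : ZMod (r ^ k)) * a i) i).val :=
        Finset.sum_congr rfl fun i _ => by rw [residues_mul]
      rw [h5] at h3
      have h6 : total (r ^ k) w g + 4 * r ^ k =
          ∑ i, (residues (fun i => (g : ZMod (r ^ k)) * a i) i).val + 2 * s * r ^ k := by
        rw [h2]
        have e1 : (s + 1) * r ^ k = s * r ^ k + r ^ k := by ring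
        have e2 : 2 * s * r ^ k = s * r ^ k + s * r ^ k := by ring
        rw [e1, e2]
        omega
      have h7 := congrArg (fun t => t / r ^ k) h6
      simp only [Nat.add_mul_div_right _ _ hpos] at h7
      exact h7
    refine ⟨m, hm0, ?_, h, ?_⟩
    · intro i
      have h4 := congrArg Units.val (pow_orderOf_eq_one P)
      rw [Units.val_pow_eq_pow_val, hP, Units.val_one] at h4
      rw [h4, one_mul]
    · refine hodd.add_even ?_
      have h2 : ∀ j, (height fun i => (h : ZMod (r ^ k)) * (p : ZMod (r ^ k)) ^ j * a i) + 2 * s =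
          total (r ^ k) w (P ^ j * h) / r ^ k + 4 := by
        intro j
        rw [htotal, Units.val_mul, Units.val_pow_eq_pow_val, hP, mul_comm (h : ZMod (r ^ k))]
      have h3 := Finset.sum_congr rfl fun j (_ : j ∈ range m) => h2 j
      rw [Finset.sum_add_distrib, Finset.sum_add_distrib, Finset.sum_const, Finset.sum_const,
        card_range, smul_eq_mul, smul_eq_mul] at h3
      have h5 : Even (∑ j ∈ range m,
          height fun i => (h : ZMod (r ^ k)) * (p : ZMod (r ^ k)) ^ j * a i) := by
        have h6 : Even (m * (2 * s)) := ⟨m * s, by ring⟩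
        have h7 : Even (m * 4) := ⟨m * 2, by ring⟩
        have h8 := hh.add h7
        rw [← h3, Nat.even_add] at h8
        exact h8.2 h6
      exact h5

end Pool.Agent.Helper41.RC
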